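import Pool.Agent.H112Z.LdimLower

/-!
The largest local dimension of a finite poset of width `w` is `w`.

Lower bound: `w` chains; the points of a chain are triples (chain, position in a box of `ℤ^(w²)`,
fine index), ordered degree-lexicographically, and `(p, ξ) < (q, η)` iff `ξ + e_{pq} < η`.
By Ramsey's theorem each aligned pair of windows lies in one member of the local realizer, which
interleaves them; the aligned pairs handled by one member form a forest whose components have at
most one window per chain, and counting incidences gives frequency at least `w`.
-/

namespace Pool.Agent.Results.MP_33e188_co.AWidthExact

open Pool.Agent.H112Z.Ldim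

theorem result (w : ℕ) (hw : 1 ≤ w) :
    IsGreatest {d : ℕ | ∃ (P : Type) (_ : Fintype P) (_ : PartialOrder P),
      HasWidth P w ∧ ldim P = d} w :=
  main w hw

end Pool.Agent.Results.MP_33e188_co.AWidthExact
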